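import Pool.Agent.H.MP_749e55_an.A

set_option autoImplicit false
open RealInnerProductSpace

namespace Pool.Agent.Results.MP_749e55_an.Yes

open Pool.Agent.H.MP_749e55_an

theorem result (H : Type) [NormedAddCommGroup H] [InnerProductSpace ℝ H] (b : ℕ → H)
    (hb : Orthonormal ℝ b) : ∃ N : Seminorm ℝ H,
    (∃ c C : ℝ, 0 < c ∧ ∀ x, c * ‖x‖ ≤ N x ∧ N x ≤ C * ‖x‖) ∧
    ∃ r₀ : ℝ, √2 < r₀ ∧ ∀ r : ℝ, 0 < r → ∀ P : Set H,
      (∀ x ∈ P, ∀ y ∈ P, x ≠ y → 2 ≤ N (x - y)) → (∀ x, ∃ p ∈ P, N (x - p) ≤ r) → r₀ ≤ r := by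
  let φ : H →ₗ[ℝ] ℝ := innerₛₗ ℝ (b 0)
  let L : H →ₗ[ℝ] H × ℝ :=
    (LinearMap.id - φ.smulRight (b 0)).prod φ
  have hL : ∀ x, (L x).1 = x - φ x • b 0 ∧ (L x).2 = φ x := fun x => ⟨rfl, rfl⟩
  have f0 : φ (b 0) = 1 := (real_inner_self_eq_norm_sq (b 0)).trans (by rw [hb.1]; norm_num)
  have : Fact (1 ≤ (4 : ENNReal)) := ⟨by norm_num⟩
  let N := (normSeminorm ℝ (WithLp 4 (H × ℝ))).comp
    ((WithLp.linearEquiv 4 ℝ _).symm.toLinearMap ∘ₗ L)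
  have hN : ∀ x, N x ^ 4 = ‖(L x).1‖ ^ 4 + (L x).2 ^ 4 := fun x => by
    change ‖WithLp.toLp 4 (L x)‖ ^ 4 = _
    rw [WithLp.prod_norm_eq_add (by norm_num), ← Real.rpow_natCast, ← Real.rpow_mul (by positivity)]
    norm_num [Even.pow_abs (by decide : Even 4)]
  refine ⟨N, ⟨1 / 2, 1, by norm_num, fun x => ?_⟩, (4.000004 : ℝ) ^ (4 : ℝ)⁻¹, ?_, fun r r0 P sep den => ?_⟩
  · have a : ‖x‖ ^ 2 = ‖(L x).1‖ ^ 2 + (L x).2 ^ 2 := by
      rw [(hL x).1, (hL x).2, norm_sub_sq_real, inner_smul_right, real_inner_comm, norm_smul, hb.1,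
        show ⟪b 0, x⟫ = φ x from rfl]
      simp; ring
    have c : ‖x‖ ^ 4 = (‖(L x).1‖ ^ 2 + (L x).2 ^ 2) ^ 2 := by rw [← a]; ring
    constructor <;> refine le_of_pow_le_pow_left₀ (n := 4) (by norm_num) (by positivity) ?_ <;>
      rw [hN, mul_pow, c] <;> nlinarith [sq_nonneg (‖(L x).1‖ ^ 2 - (L x).2 ^ 2),
        mul_nonneg (sq_nonneg ‖(L x).1‖) (sq_nonneg (L x).2)]
  · rw [Real.lt_rpow_inv_iff_of_pos (by positivity) (by norm_num) (by norm_num),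
      show (4 : ℝ) = (2 * 2 : ℕ) by norm_num, Real.rpow_natCast, pow_mul, Real.sq_sqrt zero_le_two]
    norm_num
  refine le_of_not_gt fun hr => ?_
  rw [Real.lt_rpow_inv_iff_of_pos r0.le (by norm_num) (by norm_num),
    show (4 : ℝ) = (4 : ℕ) by norm_num, Real.rpow_natCast] at hr
  obtain ⟨p, hp, -⟩ := den 0
  refine core (hb.comp _ Nat.succ_injective) (V := LinearMap.ker φ) (fun n => hb.2 n.succ_ne_zero.symm)
    (P := (fun x => L (x - p)) '' P) ⟨p, hp, by simp⟩ ?_ fun z hz => ?_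
  · rintro _ ⟨x, hx, rfl⟩ _ ⟨y, hy, rfl⟩ h
    have := pow_le_pow_left₀ zero_le_two (sep x hx y hy (by rintro rfl; exact h rfl)) 4
    rw [hN] at this
    rw [← Prod.fst_sub, ← Prod.snd_sub, ← map_sub, sub_sub_sub_cancel_right]
    linarith
  · obtain ⟨q, hq, h⟩ := den (p + z + b 0)
    refine ⟨_, ⟨q, hq, rfl⟩, ?_⟩
    have := pow_le_pow_left₀ (apply_nonneg N _) h 4
    rw [map_sub_rev, hN, show q - (p + z + b 0) = q - p - (z + b 0) by abel, map_sub L,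
      show L (z + b 0) = (z, 1) from Prod.ext
        (by rw [(hL _).1, map_add, f0, LinearMap.mem_ker.1 hz]; simp)
        (by rw [(hL _).2, map_add, f0, LinearMap.mem_ker.1 hz]; simp)] at this
    exact this.trans hr.le

end Pool.Agent.Results.MP_749e55_an.Yes
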